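import Pool.Agent.R90.W.Final
import Pool.Agent.R90.W.N
import Pool.Agent.R90.W.DR
import Pool.Agent.R90.W.DL
import Pool.Agent.R90.W.DS

set_option autoImplicit false

/-!
Every 3-trade robust complete simple game with exactly two type vectors of shift-minimal winning
coalitions is weighted.

`SimpleGame`, `Desir` (the desirability relation), `Complete`, `typeOf` and `typeVec` are defined in
`Pool.Agent.R90.Games`; `ShiftMinimal` in `Pool.Agent.R90.W.Final`.
-/

namespace Pool.Agent.Results.MP_8ddad6_co.TwoMinimalTypes

open Finset Pool.Agent.R90.Games Pool.Agent.R90.W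

variable {N : Type} [Fintype N] [DecidableEq N]

/-- The number `r` of type vectors of shift-minimal winning coalitions. The type vector of `S` is
recorded as the function sending a player `i` to the number of members of `S` of the type of `i`. -/
noncomputable def numMinTypes (G : SimpleGame N) : ℕ :=
  Set.ncard {v | ∃ S, ShiftMinimal G S ∧ typeVec G S = v}

/-- `m`-trade robustness: for no `j` with `1 ≤ j ≤ m` are there winning coalitions `X 1, …, X j` and
losing coalitions `Y 1, …, Y j` such that every player belongs to as many of the `X k` as of the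
`Y k`. -/
def Robust (G : SimpleGame N) (m : ℕ) : Prop :=
  ∀ j, 1 ≤ j → j ≤ m → ¬ ∃ X Y : Fin j → Finset N, (∀ i, G.Win (X i)) ∧ (∀ i, ¬ G.Win (Y i)) ∧
    ∀ p : N, (univ.filter fun i => p ∈ X i).card = (univ.filter fun i => p ∈ Y i).card

/-- The game is weighted: there are nonnegative real weights and a quota. -/
def Weighted (G : SimpleGame N) : Prop :=
  ∃ (w : N → ℝ) (q : ℝ), (∀ i, 0 ≤ w i) ∧ ∀ S : Finset N, G.Win S ↔ q ≤ ∑ i ∈ S, w i

/-- **Every complete simple game with `r = 2` that is 3-trade robust is weighted.** -/
theorem result (G : SimpleGame N) (hc : Complete G) (hr : numMinTypes G = 2) (h3 : Robust G 3) :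
    Weighted G := by
  refine weighted_all nlem dr dl ds G hc (Or.inl (le_of_eq hr)) ?_
  intro k hk1 hk3 X Y hT hX
  by_contra hcon
  push Not at hcon
  exact h3 k hk1 hk3 ⟨X, Y, hX, hcon, hT⟩

end Pool.Agent.Results.MP_8ddad6_co.TwoMinimalTypes
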